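import Pool.Agent.Work.MP_8b3296_mp.Final

/-!
# MP_8b3296_mp: the TFDW energy with linear shift is never nonincreasing

For every choice of the data (nuclei, `A, γ, C_e > 0`, `p > 4/3`) the function `E_α` grows at least
linearly, `E_α(λ) ≥ c λ - C` with `c > 0`.  Hence it is not nonincreasing on `[0, ∞)`.
All definitions are in `Pool/Agent/Work/MP_8b3296_mp/Defs.lean` and follow the problem file.
-/

namespace Pool.Agent.Results.MP_8b3296_mp.NotMonotone

open Pool.Agent.Work.MP_8b3296_mp

/-- For every choice of the data, `E_α` grows at least linearly at infinity; in particular it is not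
nonincreasing on `[0, ∞)`. -/
theorem result : ∀ d : TFDW,
    (∃ c : ℝ, 0 < c ∧ ∃ C : ℝ, ∀ lam : ℝ, 0 ≤ lam → c * lam - C ≤ d.Ealpha lam) ∧
      ¬ AntitoneOn d.Ealpha (Set.Ici 0) :=
  fun d => main d

end Pool.Agent.Results.MP_8b3296_mp.NotMonotone
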